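import Pool.Agent.H93.BL.Targets

/-!
Board bl_modules, module G4: uniqueness of the first exit.
-/

namespace Pool.Agent.H67.BL.G4

open MeasureTheory Set Pool.Agent.H93.BL

theorem not_mem_of_segment {ι : Type} (P : Polygon ι) (i : ι) (x : ℂ)
    (hx : x ∈ segment ℝ (P.p i) (P.q i)) : x ∉ P.Ω := by
  have h : x ∈ frontier P.Ω := by
    rw [P.frontier_eq]
    exact mem_iUnion.2 ⟨i, hx⟩
  rw [P.isOpen.frontier_eq] at h
  exact h.2

theorem not_mem_of_vtx {ι : Type} (P : Polygon ι) (w : ℂ) (hw : P.Vtx w) : w ∉ P.Ω := by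
  obtain ⟨i, rfl | rfl⟩ := hw
  · exact not_mem_of_segment P i _ (left_mem_segment _ _ _)
  · exact not_mem_of_segment P i _ (right_mem_segment _ _ _)

theorem time_eq {ι : Type} (P : Polygon ι) (y v : ℂ) (t t' : ℝ) (h0 : 0 < t) (h0' : 0 < t')
    (h : ∀ r ∈ Ioo 0 t, y + (r : ℂ) * v ∈ P.Ω) (h' : ∀ r ∈ Ioo 0 t', y + (r : ℂ) * v ∈ P.Ω)
    (hn : y + (t : ℂ) * v ∉ P.Ω) (hn' : y + (t' : ℂ) * v ∉ P.Ω) : t = t' := by
  rcases lt_trichotomy t t' with hl | hl | hl
  · exact absurd (h' t ⟨h0, hl⟩) hn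
  · exact hl
  · exact absurd (h t' ⟨h0', hl⟩) hn'

theorem vtx_not_mem {ι : Type} (P : Polygon ι) (j : ι) (w : ℂ)
    (hw : w ∈ openSegment ℝ (P.p j) (P.q j)) : ¬ P.Vtx w := by
  rintro ⟨i, hi⟩
  have key : w ≠ P.p j ∧ w ≠ P.q j := by
    constructor
    · rintro rfl
      exact P.ne j (left_mem_openSegment_iff.1 hw)
    · rintro rfl
      exact P.ne j (right_mem_openSegment_iff.1 hw)
  by_cases hij : j = i
  · subst hij
    rcases hi with hi | hi
    · exact key.1 hi
    · exact key.2 hi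
  · rcases P.meet j i hij with hd | ⟨h1, h2⟩
    · refine Set.disjoint_left.1 hd hw ?_
      rcases hi with rfl | rfl
      · exact left_mem_segment _ _ _
      · exact right_mem_segment _ _ _
    · rcases hi with hi | hi
      · exact key.2 (hi.trans h1)
      · exact key.1 (hi.trans h2)

theorem g4 : T_G4 := by
  intro ι P y v
  refine ⟨?_, ?_, ?_⟩
  · rintro j j' t t' ⟨h0, h1, h2, h3⟩ ⟨h0', h1', h2', h3'⟩
    have ht : t = t' := time_eq P y v t t' h0 h0' h1 h1'
      (not_mem_of_segment P j _ (openSegment_subset_segment _ _ _ h2))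
      (not_mem_of_segment P j' _ (openSegment_subset_segment _ _ _ h2'))
    refine ⟨ht, ?_⟩
    by_contra hjj
    subst ht
    rcases P.meet j j' hjj with hd | ⟨ha, hb⟩
    · exact Set.disjoint_left.1 hd h2 (openSegment_subset_segment _ _ _ h2')
    · rw [P.n_reversed ha hb, ip_neg_right] at h3'
      linarith
  · rintro j t w t' ⟨h0, h1, h2, h3⟩ ⟨h0', h1', h2', h3'⟩
    have ht : t = t' := time_eq P y v t t' h0 h0' h1 h1'
      (not_mem_of_segment P j _ (openSegment_subset_segment _ _ _ h2))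
      (by rw [h2']; exact not_mem_of_vtx P w h3')
    subst ht
    rw [h2'] at h2
    exact vtx_not_mem P j w h2 h3'
  · rintro w w' t t' ⟨h0, h1, h2, h3⟩ ⟨h0', h1', h2', h3'⟩
    have ht : t = t' := time_eq P y v t t' h0 h0' h1 h1'
      (by rw [h2]; exact not_mem_of_vtx P w h3) (by rw [h2']; exact not_mem_of_vtx P w' h3')
    subst ht
    exact ⟨rfl, by rw [← h2, ← h2']⟩

end Pool.Agent.H67.BL.G4
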