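import Pool.Agent.H93.BL.Targets

/-!
Board bl_modules, module G6: time reversal and uniqueness for the billiard map.
-/

namespace Pool.Agent.H67.BL.G6

open MeasureTheory Set Pool.Agent.H93.BL

theorem rev_rev {ι : Type} (P : Polygon ι) (z : ι × ℂ × ℂ) : P.rev (P.rev z) = z := by
  obtain ⟨j, x, v⟩ := z
  show (j, x, -P.refl j (-P.refl j v)) = (j, x, v)
  rw [P.refl_neg, P.refl_refl, neg_neg]

theorem rev_step {ι : Type} (P : Polygon ι) (z z' : ι × ℂ × ℂ) (h : P.GStep z z') :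
    P.GStep (P.rev z') (P.rev z) := by
  obtain ⟨j, x, v⟩ := z
  obtain ⟨j', x', v'⟩ := z'
  obtain ⟨⟨h1, h2, h3⟩, t, ⟨h4, h5, h6, h7⟩, h8, h9⟩ := h
  simp only at h1 h2 h3 h4 h5 h6 h7 h8 h9
  have e : P.refl j' v' = v := by rw [h9, P.refl_refl]
  show P.inn j' x' (-P.refl j' v') ∧ ∃ t, P.Hit x' (-P.refl j' v') j t ∧
    x = x' + (t : ℂ) * (-P.refl j' v') ∧ -P.refl j v = P.refl j (-P.refl j' v')
  rw [e]
  refine ⟨⟨by rw [h8]; exact h6, by rw [norm_neg]; exact h2, by rw [ip_neg_left]; linarith⟩, t,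
    ⟨h4, ?_, ?_, ?_⟩, ?_, ?_⟩
  · intro r hr
    have h10 := h5 (t - r) ⟨by linarith [hr.2], by linarith [hr.1]⟩
    rw [h8]
    convert h10 using 1
    push_cast
    ring
  · rw [h8]
    convert h1 using 1
    ring
  · rw [ip_neg_left]; linarith
  · rw [h8]; ring
  · rw [P.refl_neg]

theorem g6 (hG4 : T_G4) : T_G6 := by
  intro ι P z z' z''
  have huniq : ∀ z z' z'' : ι × ℂ × ℂ, P.GStep z z' → P.GStep z z'' → z' = z'' := by
    intro z z' z'' h h'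
    obtain ⟨j, x, v⟩ := z
    obtain ⟨j', x', v'⟩ := z'
    obtain ⟨j'', x'', v''⟩ := z''
    obtain ⟨-, t, h1, h2, h3⟩ := h
    obtain ⟨-, t', h1', h2', h3'⟩ := h'
    simp only at h1 h2 h3 h1' h2' h3'
    obtain ⟨ht, hj⟩ := (hG4 ι P x v).1 _ _ _ _ h1 h1'
    subst ht
    subst hj
    rw [h2, h3, h2', h3']
  refine ⟨rev_step P z z', rev_rev P z, ?_, huniq z z' z'', ?_⟩
  · rintro ⟨⟨h1, h2, h3⟩, t, ⟨h4, h5, h6, h7⟩, h8, h9⟩
    refine ⟨by rw [h8]; exact h6, by rw [h9, P.norm_refl]; exact h2, ?_⟩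
    rw [h9, P.ip_refl_n]
    linarith
  · intro h h'
    have h1 := huniq _ _ _ (rev_step P _ _ h) (rev_step P _ _ h')
    rw [← rev_rev P z, h1, rev_rev P z']

end Pool.Agent.H67.BL.G6
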