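import Pool.Agent.H93.BL.Targets

/-!
Board bl_modules, module L2: the algebraic properties of the interval system.
-/

namespace Pool.Agent.H67.BL.L2

open MeasureTheory Set Pool.Agent.H93.BL

theorem lz_inj {ι : Type} (P : Polygon ι) (E : Set ι) (C : Set ℂ) (hL1 : T_L1)
    (z z' : P.Leg E C × ℝ) (h : P.lz E C z = P.lz E C z') : z = z' := by
  obtain ⟨⟨⟨j, v⟩, hk⟩, t⟩ := z
  obtain ⟨⟨⟨j', v'⟩, hk'⟩, t'⟩ := z'
  have h1 : j = j' := congrArg (fun y => y.1) h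
  have h2 : v = v' := congrArg (fun y => y.2.2) h
  subst h1
  subst h2
  have h3 : P.lpt E C ⟨(j, v), hk⟩ t = P.lpt E C ⟨(j, v), hk⟩ t' := congrArg (fun y => y.2.1) h
  have h4 := (hL1 ι P E C ⟨(j, v), hk⟩).1
  have h5 : t = t' := by
    rw [← h4 t, ← h4 t', h3]
  rw [h5]

theorem l2 (hL1 : T_L1) (hG4 : T_G4) (hG6 : T_G6) : T_L2 := by
  intro ι P E C
  refine ⟨?_, ?_, ?_, ?_, ?_⟩
  · intro z z' h
    have h1 : P.inn (P.lz E C z).1 (P.lz E C z).2.1 (P.lz E C z).2.2 := h.1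
    have h2 := (hG6 ι P (P.lz E C z) (P.lz E C z') (P.lz E C z)).2.2.1 h
    exact ⟨((hL1 ι P E C z.1).2.1 z.2).2 h1.1, ((hL1 ι P E C z'.1).2.1 z'.2).2 h2.1⟩
  · intro z z' z'' h h'
    exact lz_inj P E C hL1 _ _ ((hG6 ι P (P.lz E C z) (P.lz E C z') (P.lz E C z'')).2.2.2.1 h h')
  · intro z z' z'' h h'
    exact lz_inj P E C hL1 _ _ ((hG6 ι P (P.lz E C z) (P.lz E C z') (P.lz E C z'')).2.2.2.2 h h')
  · rintro z z' ⟨-, j, τ, h1, h2⟩ ⟨-, t, h3, -, h5⟩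
    obtain ⟨-, hj⟩ := (hG4 ι P _ _).1 _ _ _ _ h1 h3
    have h6 : j = z'.1.1.1 := hj
    rcases h2 with h2 | h2
    · exact z'.1.2.1 (h6 ▸ h2)
    · apply h2
      rw [hj, ← h5]
      exact z'.1.2.2.1
  · rintro z z' ⟨-, j, τ, h1, h2⟩ h
    have h3 := (hG6 ι P (P.lz E C z) (P.lz E C z') (P.lz E C z)).1 h
    obtain ⟨-, t, h4, -, -⟩ := h3
    obtain ⟨-, s, -, -, h5⟩ := h
    have h6 : P.refl (P.lz E C z').1 (P.lz E C z').2.2 = (P.lz E C z).2.2 := by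
      rw [h5, P.refl_refl]
    obtain ⟨-, hj⟩ := (hG4 ι P _ _).1 _ _ _ _ h1 h4
    have h7 : j = z.1.1.1 := hj
    rcases h2 with h2 | h2
    · exact z.1.2.1 (h7 ▸ h2)
    · apply h2
      rw [h6, h7]
      exact z.1.2.2.2.1

end Pool.Agent.H67.BL.L2
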