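import Pool.Agent.H93.BL.Targets

/-!
Board bl_modules, module SB: density of the powers of a unit number which is not a root of unity.
-/

namespace Pool.Agent.H67.BL.SB

open MeasureTheory Set Pool.Agent.H93.BL

theorem dense_pow (x : Circle) (hx : ∀ n : ℕ, 0 < n → x ^ n ≠ 1) :
    DenseRange (fun n : ℕ => x ^ n) := by
  rw [← denseRange_zpow_iff_pow]
  obtain ⟨θ, rfl⟩ : ∃ θ : ℝ, Circle.exp θ = x := ⟨_, Circle.exp_arg x⟩
  have hpi : (2 * Real.pi) ≠ 0 := by positivity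
  have hirr : Irrational (θ / (2 * Real.pi)) := by
    rintro ⟨q, hq⟩
    apply hx q.den q.den_pos
    have h1 : (q.den : ℝ) * θ = q.num * (2 * Real.pi) := by
      have h2 : θ = (q : ℝ) * (2 * Real.pi) := by rw [hq]; field_simp
      have h3 : (q.den : ℝ) * (q : ℝ) = q.num := by exact_mod_cast Rat.den_mul_eq_num q
      rw [h2, ← mul_assoc, h3]
    rw [← Circle.exp_nsmul]
    have h4 : (q.den • θ : ℝ) = q.num * (2 * Real.pi) := by rw [nsmul_eq_mul, h1]
    rw [h4, Circle.exp_eq_one]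
    exact ⟨q.num, by ring⟩
  have hd := AddCircle.denseRange_zsmul_coe_iff.2 hirr
  have hs : DenseRange (AddCircle.homeomorphCircle' : AddCircle (2 * Real.pi) → Circle) :=
    AddCircle.homeomorphCircle'.surjective.denseRange
  have hc := hs.comp hd AddCircle.homeomorphCircle'.continuous
  refine hc.mono ?_ 
  rintro _ ⟨n, rfl⟩
  refine ⟨n, ?_⟩
  show Circle.exp θ ^ n = AddCircle.homeomorphCircle' (n • (θ : AddCircle (2 * Real.pi)))
  rw [← AddCircle.coe_zsmul, AddCircle.homeomorphCircle'_apply_mk, Circle.exp_zsmul]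

theorem first (z ζ : ℂ) (m : ℝ) (hz : ‖z‖ = 1) (hζ : ‖ζ‖ = 1) (hn : ∀ n : ℕ, 0 < n → z ^ n ≠ 1)
    (hm : m < 1) : ∃ k : ℕ, m < (ζ * z ^ k).re := by
  obtain ⟨x, hx⟩ : ∃ x : Circle, (x : ℂ) = z := ⟨⟨z, by simpa [Submonoid.unitSphere] using hz⟩, rfl⟩
  obtain ⟨y, hy⟩ : ∃ y : Circle, (y : ℂ) = ζ := ⟨⟨ζ, by simpa [Submonoid.unitSphere] using hζ⟩, rfl⟩
  have hd := dense_pow x (fun n h0 h1 => hn n h0 (by
    rw [← hx, ← Circle.coe_pow, h1, Circle.coe_one]))
  have hopen : IsOpen {w : Circle | m < ((y * w : Circle) : ℂ).re} :=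
    isOpen_lt continuous_const (Complex.continuous_re.comp
      (continuous_subtype_val.comp (continuous_const.mul continuous_id)))
  obtain ⟨k, hk⟩ := hd.exists_mem_open hopen ⟨y⁻¹, by
    show m < ((y * y⁻¹ : Circle) : ℂ).re
    rw [mul_inv_cancel, Circle.coe_one, Complex.one_re]
    exact hm⟩
  refine ⟨k, ?_⟩
  have h1 : m < ((y * x ^ k : Circle) : ℂ).re := hk
  rw [Circle.coe_mul, Circle.coe_pow, hx, hy] at h1
  exact h1

theorem sb : T_SB := by
  intro z ζ m hz hζ hn hm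
  refine ⟨first z ζ m hz hζ hn hm, ?_⟩
  obtain ⟨k, hk⟩ := first ((starRingEnd ℂ) z) (ζ * (starRingEnd ℂ) z) m
    (by rw [Complex.norm_conj, hz]) (by rw [norm_mul, Complex.norm_conj, hz, hζ, one_mul])
    (fun n h0 h1 => hn n h0 (by
      rw [← map_pow] at h1
      have := congrArg (starRingEnd ℂ) h1
      rwa [Complex.conj_conj, map_one] at this)) hm
  refine ⟨k + 1, Nat.succ_pos _, ?_⟩
  rw [pow_succ']
  rw [mul_assoc] at hk
  exact hk

end Pool.Agent.H67.BL.SB
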