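import Pool.Agent.H93.BL.Targets

/-!
Board bl_modules, module SC: one reflection changes the level by at most one.
-/

namespace Pool.Agent.H67.BL.SC

open MeasureTheory Set Pool.Agent.H93.BL

theorem re_inv {z : ℂ} (hz : ‖z‖ = 1) : (z⁻¹).re = z.re := by
  rw [Complex.inv_eq_conj hz, Complex.conj_re]

/-- the grazing quantity -/
theorem graze {w u : ℂ} (hw : ‖w‖ = 1) (hu : ‖u‖ = 1) :
    2 * ip w u ^ 2 - 1 = (w ^ 2 / u ^ 2).re := by
  have h1 : w ^ 2 / u ^ 2 = (w * (starRingEnd ℂ) u) ^ 2 := by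
    rw [← Complex.inv_eq_conj hu, mul_pow, inv_pow]
    rfl
  have h2 : ‖w * (starRingEnd ℂ) u‖ = 1 := by rw [norm_mul, Complex.norm_conj, hw, hu, one_mul]
  have h3 := Complex.sq_norm (w * (starRingEnd ℂ) u)
  rw [h2, Complex.normSq_apply] at h3
  rw [h1, ip_eq_re]
  generalize w * (starRingEnd ℂ) u = X at h3 ⊢
  rw [sq X, Complex.mul_re]
  linarith

theorem sc : T_SC := by
  intro ι P j c r v w k hc hr hv hw
  have hc0 : c ≠ 0 := by rintro rfl; simp at hc
  have hr0 : r ≠ 0 := by rintro rfl; simp at hr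
  have hv0 : v ≠ 0 := by rintro rfl; simp at hv
  have hu := P.norm_u j
  have hu0 := P.u_ne j
  obtain ⟨R, hR⟩ : ∃ R, R = r ^ k := ⟨_, rfl⟩
  have hRn : ‖R‖ = 1 := by rw [hR, norm_zpow, hr, one_zpow]
  have hR0 : R ≠ 0 := by rintro rfl; simp at hRn
  have e1 : r ^ (-k) = R⁻¹ := by rw [zpow_neg, hR]
  have e2 : r ^ (k + 1) = R * r := by rw [zpow_add₀ hr0, zpow_one, hR]
  have e3 : r ^ (-(k + 1)) = (R * r)⁻¹ := by rw [zpow_neg, e2]
  have e4 : r ^ (k - 1) = R * r⁻¹ := by rw [zpow_sub₀ hr0, zpow_one, hR]; rfl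
  have e5 : r ^ (-(k - 1)) = (R * r⁻¹)⁻¹ := by rw [zpow_neg, e4]
  have e6 : r ^ (2 * k + 1) = R ^ 2 * r := by
    rw [zpow_add₀ hr0, zpow_one, mul_comm 2 k, zpow_mul, ← hR]; rfl
  have e7 : r ^ (2 * k - 1) = R ^ 2 * r⁻¹ := by
    rw [zpow_sub₀ hr0, zpow_one, mul_comm 2 k, zpow_mul, ← hR]; rfl
  have cv : (starRingEnd ℂ) v = v⁻¹ := (Complex.inv_eq_conj hv).symm
  have cc' : (starRingEnd ℂ) c = c⁻¹ := (Complex.inv_eq_conj hc).symm
  have key : ∃ ε : ℂ, (ε = 1 ∨ ε = -1) ∧ (w = ε * (R * v) ∨ w = ε * (c * R⁻¹ * v⁻¹)) := by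
    rcases hw with h | h | h | h
    · exact ⟨1, Or.inl rfl, Or.inl (by rw [h, hR]; ring)⟩
    · exact ⟨-1, Or.inr rfl, Or.inl (by rw [h, hR]; ring)⟩
    · exact ⟨1, Or.inl rfl, Or.inr (by rw [h, e1, cv]; ring)⟩
    · exact ⟨-1, Or.inr rfl, Or.inr (by rw [h, e1, cv]; ring)⟩
  obtain ⟨ε, hε, hwε⟩ := key
  have hε2 : ε * ε = 1 := by rcases hε with rfl | rfl <;> norm_num
  have hε0 : ε ≠ 0 := by rintro rfl; simp at hε2
  have hεi : ε⁻¹ = ε := by
    rw [inv_eq_iff_eq_inv]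
    exact (eq_inv_of_mul_eq_one_left hε2)
  have hεn : ‖ε‖ = 1 := by rcases hε with rfl | rfl <;> simp
  have hwn : ‖w‖ = 1 := by
    rcases hwε with h | h
    · rw [h, norm_mul, norm_mul, hεn, hRn, hv]; norm_num
    · rw [h, norm_mul, norm_mul, norm_mul, norm_inv, norm_inv, hεn, hRn, hv, hc]; norm_num
  have hrefl : P.refl j w = P.u j ^ 2 * w⁻¹ := by
    unfold Polygon.refl
    rw [Complex.inv_eq_conj hwn]
  have hgr := graze hwn hu
  -- membership criteria
  have mem1 : ∀ (k' : ℤ) (R' x : ℂ), R' = r ^ k' → x = ε * (R' * v) → x ∈ lev c r v k' := by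
    intro k' R' x h1 h2
    rcases hε with rfl | rfl
    · exact Or.inl (by rw [h2, h1]; ring)
    · exact Or.inr (Or.inl (by rw [h2, h1]; ring))
  have mem2 : ∀ (k' : ℤ) (R' x : ℂ), R' = r ^ (-k') → x = ε * (c * R' * v⁻¹) →
      x ∈ lev c r v k' := by
    intro k' R' x h1 h2
    rcases hε with rfl | rfl
    · exact Or.inr (Or.inr (Or.inl (by rw [h2, h1, cv]; ring)))
    · exact Or.inr (Or.inr (Or.inr (by rw [h2, h1, cv]; ring)))
  have mem1n : ∀ (k' : ℤ) (R' x : ℂ), R' = r ^ k' → x = -(ε * (R' * v)) → x ∈ lev c r v k' := by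
    intro k' R' x h1 h2
    rcases hε with rfl | rfl
    · exact Or.inr (Or.inl (by rw [h2, h1]; ring))
    · exact Or.inl (by rw [h2, h1]; ring)
  have mem2n : ∀ (k' : ℤ) (R' x : ℂ), R' = r ^ (-k') → x = -(ε * (c * R' * v⁻¹)) →
      x ∈ lev c r v k' := by
    intro k' R' x h1 h2
    rcases hε with rfl | rfl
    · exact Or.inr (Or.inr (Or.inr (by rw [h2, h1, cv]; ring)))
    · exact Or.inr (Or.inr (Or.inl (by rw [h2, h1, cv]; ring)))
  have inv1 : (ε * (R * v))⁻¹ = ε * (R⁻¹ * v⁻¹) := by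
    rw [mul_inv, hεi, mul_inv]
  have inv2 : (ε * (c * R⁻¹ * v⁻¹))⁻¹ = ε * (c⁻¹ * R * v) := by
    rw [mul_inv, hεi, mul_inv, mul_inv, inv_inv, inv_inv]
  constructor
  · rintro (h | h)
    · rcases hwε with hw' | hw'
      · refine mem2 k R⁻¹ _ e1.symm ?_
        rw [hrefl, h, hw', inv1]; ring
      · refine mem1 k R _ hR ?_
        rw [hrefl, h, hw', inv2]; field_simp
    · rcases hwε with hw' | hw'
      · refine mem2n k R⁻¹ _ e1.symm ?_
        rw [hrefl, h, hw', inv1]; ring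
      · refine mem1n k R _ hR ?_
        rw [hrefl, h, hw', inv2]; field_simp
  · intro h
    have hX : ∀ a : ℂ, ‖a‖ = 1 → ‖c⁻¹ * v ^ 2 * (R ^ 2 * a)‖ = 1 := by
      intro a ha
      rw [norm_mul, norm_mul, norm_mul, norm_inv, norm_pow, norm_pow, hc, hv, hRn, ha]; norm_num
    rcases h with h | h
    · rcases hwε with hw' | hw'
      · right
        refine ⟨mem2 (k - 1) (R * r⁻¹)⁻¹ _ e5.symm ?_, ?_⟩
        · rw [hrefl, h, hw', inv1, mul_inv, inv_inv]; ring
        · rw [hgr, e7, cc', h, hw']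
          congr 1
          field_simp
          linear_combination hε2
      · left
        refine ⟨mem1 (k + 1) (R * r) _ e2.symm ?_, ?_⟩
        · rw [hrefl, h, hw', inv2]; field_simp
        · rw [hgr, e6, cc', h, hw', ← re_inv (hX r hr)]
          congr 1
          field_simp
          linear_combination hε2
    · have h' : P.u j ^ 2 = c * r⁻¹ := by rw [← h]; field_simp
      rcases hwε with hw' | hw'
      · left
        refine ⟨mem2 (k + 1) (R * r)⁻¹ _ e3.symm ?_, ?_⟩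
        · rw [hrefl, h', hw', inv1, mul_inv]; ring
        · rw [hgr, e6, cc', h', hw']
          congr 1
          field_simp
          linear_combination hε2
      · right
        refine ⟨mem1 (k - 1) (R * r⁻¹) _ e4.symm ?_, ?_⟩
        · rw [hrefl, h', hw', inv2]; field_simp
        · rw [hgr, e7, cc', h', hw', ← re_inv (hX r⁻¹ (by rw [norm_inv, hr, inv_one]))]
          congr 1
          field_simp
          linear_combination hε2

end Pool.Agent.H67.BL.SC
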